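import Pool.Agent.N658.SP.Oct

/-!
# OCT/C0 (helper619): the elementary reason why `c₀(J)` contains no copy of `ℓ₁`
-/

set_option autoImplicit false

namespace Pool.Agent.N619.OCT

open Pool.Agent.N658.SP.Oct

universe u

theorem pairs {Γ J : Type u} (t : Γ → J → ℝ) (C : ℝ) (G : Set Γ) (hG : G.Infinite)
    (hC : ∀ g j, |t g j| ≤ C) (hf : ∀ g, ∀ d : ℝ, 0 < d → {j | d ≤ |t g j|}.Finite)
    (d : ℝ) (hd : 0 < d) (m : ℕ) : ∃ p q : Fin m → Γ, (∀ i, p i ∈ G ∧ q i ∈ G) ∧
      Function.Injective p ∧ Function.Injective q ∧ (∀ i k, p i ≠ q k) ∧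
      ∀ j i k, d < |t (p i) j - t (q i) j| → d < |t (p k) j - t (q k) j| → i = k := by
  induction m with
  | zero =>
    exact ⟨Fin.elim0, Fin.elim0, fun i => i.elim0, fun i => i.elim0, fun i => i.elim0,
      fun i => i.elim0, fun j i => i.elim0⟩
  | succ m ih =>
    obtain ⟨p, q, h1, h2, h3, h4, h5⟩ := ih
    have hK : {j | ∃ i, d < |t (p i) j - t (q i) j|}.Finite := by
      have h6 : {j | ∃ i, d < |t (p i) j - t (q i) j|} ⊆
          ⋃ i, ({j | d / 2 ≤ |t (p i) j|} ∪ {j | d / 2 ≤ |t (q i) j|}) := by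
        rintro j ⟨i, hi⟩
        refine Set.mem_iUnion.2 ⟨i, ?_⟩
        by_contra hcon
        rw [Set.mem_union, not_or] at hcon
        have h7 : ¬ d / 2 ≤ |t (p i) j| := hcon.1
        have h8 : ¬ d / 2 ≤ |t (q i) j| := hcon.2
        have h9 := abs_sub (t (p i) j) (t (q i) j)
        linarith
      refine (Set.finite_iUnion fun i => ?_).subset h6
      exact (hf _ _ (by positivity)).union (hf _ _ (by positivity))
    have hG' : (G \ (Set.range p ∪ Set.range q)).Infinite :=
      hG.sdiff ((Set.finite_range p).union (Set.finite_range q))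
    obtain ⟨g, hg, g', hg', hne, hfl⟩ : ∃ g ∈ G \ (Set.range p ∪ Set.range q),
        ∃ g' ∈ G \ (Set.range p ∪ Set.range q), g ≠ g' ∧
          (fun j : {j | ∃ i, d < |t (p i) j - t (q i) j|} => ⌊t g j / d⌋) =
          (fun j : {j | ∃ i, d < |t (p i) j - t (q i) j|} => ⌊t g' j / d⌋) := by
      have := hK.to_subtype
      refine Set.Infinite.exists_ne_map_eq_of_mapsTo hG'
        (t := Set.pi Set.univ fun _ => Set.Icc ⌊-C / d⌋ ⌊C / d⌋) ?_ ?_
      · intro x _ j _
        have h6 := abs_le.1 (hC x j)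
        constructor
        · exact Int.floor_le_floor (div_le_div_of_nonneg_right h6.1 hd.le)
        · exact Int.floor_le_floor (div_le_div_of_nonneg_right h6.2 hd.le)
      · exact Set.Finite.pi fun _ => Set.finite_Icc _ _
    have hsmall : ∀ j, (∃ i, d < |t (p i) j - t (q i) j|) → ¬ d < |t g j - t g' j| := by
      intro j hj
      have h6 := congrFun hfl ⟨j, hj⟩
      have h7 := Int.abs_sub_lt_one_of_floor_eq_floor h6
      have h8 : |t g j - t g' j| < d := by
        have h9 : t g j / d - t g' j / d = (t g j - t g' j) / d := by ring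
        simp only at h7
        rw [h9, abs_div, abs_of_pos hd, div_lt_one hd] at h7
        exact h7
      exact not_lt.2 h8.le
    have hgp : ∀ i, p i ≠ g := fun i hi => hg.2 (Or.inl ⟨i, hi⟩)
    have hgq : ∀ i, q i ≠ g := fun i hi => hg.2 (Or.inr ⟨i, hi⟩)
    have hgp' : ∀ i, p i ≠ g' := fun i hi => hg'.2 (Or.inl ⟨i, hi⟩)
    have hgq' : ∀ i, q i ≠ g' := fun i hi => hg'.2 (Or.inr ⟨i, hi⟩)
    refine ⟨Fin.cons g p, Fin.cons g' q, ?_, ?_, ?_, ?_, ?_⟩
    · intro i
      refine Fin.cases ?_ (fun i => ?_) i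
      · exact ⟨hg.1, hg'.1⟩
      · exact h1 i
    · rw [Fin.cons_injective_iff]
      exact ⟨fun ⟨i, hi⟩ => hgp i hi, h2⟩
    · rw [Fin.cons_injective_iff]
      exact ⟨fun ⟨i, hi⟩ => hgq' i hi, h3⟩
    · intro i k
      refine Fin.cases ?_ (fun i => ?_) i <;> refine Fin.cases ?_ (fun k => ?_) k
      · simpa using hne
      · simpa using (hgq k).symm
      · simpa using hgp' i
      · simpa using h4 i k
    · intro j i k
      refine Fin.cases ?_ (fun i => ?_) i <;> refine Fin.cases ?_ (fun k => ?_) k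
      · intro _ _; rfl
      · intro h6 h7
        simp only [Fin.cons_zero, Fin.cons_succ] at h6 h7
        exact absurd h6 (hsmall j ⟨k, h7⟩)
      · intro h6 h7
        simp only [Fin.cons_zero, Fin.cons_succ] at h6 h7
        exact absurd h7 (hsmall j ⟨i, h6⟩)
      · intro h6 h7
        simp only [Fin.cons_succ] at h6 h7
        rw [h5 j i k h6 h7]

theorem stmC0 : StmC0.{u} := by
  intro Γ J t C G hG hC hf m d hd
  obtain ⟨p, q, h1, h2, h3, h4, h5⟩ := pairs t C G hG hC hf d hd m
  refine ⟨p, q, h1, h2, h3, h4, fun j => ?_⟩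
  obtain ⟨g0, -⟩ := hG.nonempty
  have hC0 : 0 ≤ C := (abs_nonneg _).trans (hC g0 j)
  have h6 : |∑ i, (t (p i) j - t (q i) j)| ≤ ∑ i, |t (p i) j - t (q i) j| :=
    Finset.abs_sum_le_sum_abs _ _
  by_cases h7 : ∃ i, d < |t (p i) j - t (q i) j|
  · obtain ⟨i0, hi0⟩ := h7
    have h8 : ∀ i, |t (p i) j - t (q i) j| ≤ d + (if i = i0 then 2 * C else 0) := by
      intro i
      by_cases hi : i = i0
      · rw [if_pos hi]
        have h9 := abs_sub (t (p i) j) (t (q i) j)
        have h10 := hC (p i) j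
        have h11 := hC (q i) j
        linarith
      · rw [if_neg hi, add_zero]
        by_contra hcon
        exact hi (h5 j i i0 (not_le.1 hcon) hi0)
    have h9 : ∑ i : Fin m, (d + (if i = i0 then 2 * C else 0)) = m * d + 2 * C := by
      rw [Finset.sum_add_distrib, Finset.sum_const, Finset.card_univ, Fintype.card_fin,
        nsmul_eq_mul, Finset.sum_ite_eq' Finset.univ i0, if_pos (Finset.mem_univ _)]
    have h10 := Finset.sum_le_sum fun i (_ : i ∈ Finset.univ) => h8 i
    linarith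
  · push Not at h7
    have h10 := Finset.sum_le_sum fun i (_ : i ∈ Finset.univ) => h7 i
    rw [Finset.sum_const, Finset.card_univ, Fintype.card_fin, nsmul_eq_mul] at h10
    linarith

end Pool.Agent.N619.OCT
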